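import Pool.Agent.Work.MP_2738db_nt_C.Interface

/-!
BON: the Bonferroni inequality, by induction on the set.
-/

set_option autoImplicit false

namespace Pool.Agent.Work.MP_2738db_nt_C.helper31

open Finset

/-- the truncated inclusion-exclusion sum, written with an indicator -/
noncomputable def br (a : ℕ → ℝ) (S : Finset ℕ) (r : ℕ) : ℝ :=
  ∑ T ∈ S.powerset, if T.card ≤ r then (-1 : ℝ) ^ T.card * ∏ i ∈ T, a i else 0

theorem br_zero (a : ℕ → ℝ) (S : Finset ℕ) : br a S 0 = 1 := by
  unfold br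
  rw [Finset.sum_eq_single (∅ : Finset ℕ)]
  · simp
  · intro T _ hT
    rw [if_neg]
    intro h
    exact hT (Finset.card_eq_zero.mp (Nat.le_zero.mp h))
  · intro h
    exact absurd (Finset.empty_mem_powerset S) h

theorem br_insert (a : ℕ → ℝ) (S : Finset ℕ) (p : ℕ) (hp : p ∉ S) (r : ℕ) :
    br a (insert p S) (r + 1) = br a S (r + 1) - a p * br a S r := by
  unfold br
  rw [Finset.sum_powerset_insert hp, sub_eq_add_neg, Finset.mul_sum, ← Finset.sum_neg_distrib]
  congr 1
  refine Finset.sum_congr rfl fun T hT => ?_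
  have hpT : p ∉ T := fun h => hp (Finset.mem_powerset.mp hT h)
  rw [Finset.card_insert_of_notMem hpT, Finset.prod_insert hpT]
  by_cases h : T.card ≤ r
  · rw [if_pos (Nat.succ_le_succ h), if_pos h, pow_succ]
    ring
  · rw [if_neg (fun h' => h (Nat.le_of_succ_le_succ h')), if_neg h]
    ring

theorem bonf (a : ℕ → ℝ) (S : Finset ℕ) (ha : ∀ i ∈ S, 0 ≤ a i ∧ a i ≤ 1) :
    ∀ r : ℕ, 0 ≤ (-1 : ℝ) ^ r * (br a S r - ∏ i ∈ S, (1 - a i)) := by
  classical
  induction S using Finset.induction_on with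
  | empty =>
    intro r
    have h : br a ∅ r = 1 := by
      unfold br
      simp
    rw [h]
    simp
  | insert p S hp ih =>
    have ha' : ∀ i ∈ S, 0 ≤ a i ∧ a i ≤ 1 := fun i hi => ha i (Finset.mem_insert_of_mem hi)
    have hP := ha p (Finset.mem_insert_self p S)
    intro r
    rw [Finset.prod_insert hp]
    have hS1 : ∏ i ∈ S, (1 - a i) ≤ 1 :=
      Finset.prod_le_one (fun i hi => sub_nonneg.mpr (ha' i hi).2)
        (fun i hi => by linarith [(ha' i hi).1])
    have hS0 : 0 ≤ ∏ i ∈ S, (1 - a i) :=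
      Finset.prod_nonneg (fun i hi => sub_nonneg.mpr (ha' i hi).2)
    cases r with
    | zero =>
      rw [br_zero]
      have : (1 - a p) * ∏ i ∈ S, (1 - a i) ≤ 1 :=
        mul_le_one₀ (by linarith [hP.1]) hS0 hS1
      simp only [pow_zero, one_mul]
      linarith
    | succ r =>
      rw [br_insert a S p hp r]
      have h1 := ih ha' (r + 1)
      have h2 := mul_nonneg hP.1 (ih ha' r)
      have h3 : (-1 : ℝ) ^ (r + 1) *
          (br a S (r + 1) - a p * br a S r - (1 - a p) * ∏ i ∈ S, (1 - a i)) =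
          (-1 : ℝ) ^ (r + 1) * (br a S (r + 1) - ∏ i ∈ S, (1 - a i)) +
            a p * ((-1 : ℝ) ^ r * (br a S r - ∏ i ∈ S, (1 - a i))) := by
        rw [pow_succ]
        ring
      rw [h3]
      exact add_nonneg h1 h2

theorem bon : Stmt_Bon := by
  intro S a r ha hr
  have h := bonf a S ha r
  rw [hr.neg_one_pow, one_mul] at h
  rw [Finset.sum_filter]
  unfold br at h
  linarith

end Pool.Agent.Work.MP_2738db_nt_C.helper31
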