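import Pool.Agent.Work.MP_2738db_nt_C.Interface

/-!
TLC: two logarithms theorem without the condition of coprimality.
-/

set_option autoImplicit false

namespace Pool.Agent.Work.MP_2738db_nt_C.helper31

/-- different positive integers have logarithms which are not too close -/
theorem log_gap (a b : ℕ) (ha : 1 ≤ a) (hb : 1 ≤ b) (hab : a ≠ b) :
    1 / (2 * (a : ℝ)) ≤ |Real.log a - Real.log b| := by
  have ha' : (1 : ℝ) ≤ a := by exact_mod_cast ha
  have hb' : (1 : ℝ) ≤ b := by exact_mod_cast hb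
  have ha0 : (0 : ℝ) < a := by linarith
  have hb0 : (0 : ℝ) < b := by linarith
  rcases lt_or_gt_of_ne hab with h | h
  · have h1 : (a : ℝ) + 1 ≤ b := by exact_mod_cast h
    have h2 := Real.one_sub_inv_le_log_of_pos (div_pos hb0 ha0)
    rw [Real.log_div hb0.ne' ha0.ne', inv_div] at h2
    have h3 : 1 / (2 * (a : ℝ)) ≤ 1 - a / b := by
      have h4 : (a : ℝ) / b ≤ a / (a + 1) := by
        apply div_le_div_of_nonneg_left ha0.le (by linarith) h1
      have h5 : (1 : ℝ) - a / (a + 1) = 1 / (a + 1) := by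
        field_simp
        ring
      have h6 : 1 / (2 * (a : ℝ)) ≤ 1 / (a + 1) :=
        one_div_le_one_div_of_le (by linarith) (by linarith)
      linarith
    rw [abs_sub_comm]
    exact le_trans (le_trans h3 h2) (le_abs_self _)
  · have h1 : (b : ℝ) + 1 ≤ a := by exact_mod_cast h
    have h2 := Real.one_sub_inv_le_log_of_pos (div_pos ha0 hb0)
    rw [Real.log_div ha0.ne' hb0.ne', inv_div] at h2
    have h3 : 1 / (2 * (a : ℝ)) ≤ 1 - b / a := by
      have h4 : (1 : ℝ) - b / a = (a - b) / a := by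
        field_simp
      rw [h4, div_le_div_iff₀ (by linarith) ha0]
      nlinarith
    exact le_trans (le_trans h3 h2) (le_abs_self _)

theorem tlc : MP_2738db_nt_Y.Stmt_Arq → Stmt_Tlc := by
  rintro ⟨C, hC, H⟩
  refine ⟨C, hC, ?_⟩
  intro X₁ X₂ Y K l A B hl hX₁ hX₂ hY hK hA hB hX₁A hX₂A hYB hKA hCl hne
  by_cases hlK : l ∣ K
  · obtain ⟨K', rfl⟩ := hlK
    have hl2 : (2 : ℝ) ≤ l := by exact_mod_cast hl.two_le
    have hX₁' : (1 : ℝ) ≤ X₁ := by exact_mod_cast hX₁
    have hX₂' : (1 : ℝ) ≤ X₂ := by exact_mod_cast hX₂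
    have hY' : (2 : ℝ) ≤ Y := by exact_mod_cast hY
    have hne' : X₁ ≠ X₂ * Y ^ K' := by
      intro h
      apply hne
      rw [h, mul_pow, ← pow_mul, mul_comm K' l]
    have hb : 1 ≤ X₂ * Y ^ K' :=
      Nat.one_le_iff_ne_zero.mpr (Nat.mul_ne_zero (by omega) (pow_ne_zero _ (by omega)))
    have h1 := log_gap X₁ (X₂ * Y ^ K') hX₁ hb hne'
    have h2 : Real.log ((X₂ * Y ^ K' : ℕ) : ℝ) = Real.log X₂ + K' * Real.log Y := by
      push_cast
      rw [Real.log_mul (by linarith) (pow_ne_zero _ (by linarith)), Real.log_pow]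
    rw [h2] at h1
    have h3 : (l : ℝ) * (Real.log X₁ - Real.log X₂) - ((l * K' : ℕ) : ℝ) * Real.log Y =
        l * (Real.log X₁ - (Real.log X₂ + K' * Real.log Y)) := by
      push_cast
      ring
    rw [h3, abs_mul, abs_of_nonneg (by linarith : (0 : ℝ) ≤ l)]
    have hlog : 0 ≤ Real.log l := Real.log_nonneg (by linarith)
    have h4 : A ≤ C * (A * B) * (1 + Real.log l) ^ 2 := by
      have h5 : (1 : ℝ) ≤ (1 + Real.log l) ^ 2 := by nlinarith
      have h6 : A ≤ A * B := le_mul_of_one_le_right (by linarith) hB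
      have h7 : A * B ≤ C * (A * B) :=
        le_mul_of_one_le_left (by nlinarith) hC
      have h8 : C * (A * B) ≤ C * (A * B) * (1 + Real.log l) ^ 2 :=
        le_mul_of_one_le_right (by nlinarith) h5
      linarith
    have h5 : Real.exp (-(C * (A * B) * (1 + Real.log l) ^ 2)) ≤ 1 / X₁ := by
      rw [one_div, ← Real.exp_log (show (0 : ℝ) < X₁ by linarith), ← Real.exp_neg]
      exact Real.exp_le_exp.mpr (by linarith)
    have h6 : (1 : ℝ) / X₁ ≤ l * (1 / (2 * X₁)) := by
      rw [mul_one_div, div_le_div_iff₀ (by linarith) (by linarith)]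
      nlinarith
    have h7 : (l : ℝ) * (1 / (2 * X₁)) ≤
        l * |Real.log X₁ - (Real.log X₂ + K' * Real.log Y)| :=
      mul_le_mul_of_nonneg_left h1 (by linarith)
    linarith
  · have hco : Nat.Coprime l K := (Nat.Prime.coprime_iff_not_dvd hl).mpr hlK
    exact H X₁ X₂ Y K l A B hX₁ hX₂ hY hK hl.one_le hco hA hB hX₁A hX₂A hYB hKA hCl

end Pool.Agent.Work.MP_2738db_nt_C.helper31
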